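import Pool.Agent.W606.SF.Graph

/-!
MP_951455_co, Q1 (disproof, in a stronger form): the number of vertices of the first factor in
planar product structure cannot be bounded by a constant times the path-partition-width.
-/

set_option autoImplicit false

namespace Pool.Agent.Results.MP_951455_co.NoConstantFactor

/-- `G` can be drawn in the plane: distinct points for the vertices, a simple arc for every edge
between its two ends, meeting no other vertex, and arcs of different edges meet only in vertices. -/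
def PlaneDrawable {V : Type} (G : SimpleGraph V) : Prop :=
  ∃ (p : V → ℝ × ℝ) (γ : V → V → unitInterval → ℝ × ℝ), Function.Injective p ∧
    (∀ u v, G.Adj u v → Continuous (γ u v) ∧ Function.Injective (γ u v) ∧
      γ u v 0 = p u ∧ γ u v 1 = p v) ∧
    (∀ u v w x, G.Adj u v → γ u v x = p w → w = u ∨ w = v) ∧
    (∀ u v u' v' x y, G.Adj u v → G.Adj u' v' → s(u, v) ≠ s(u', v') →
      γ u v x = γ u' v' y → ∃ w, γ u v x = p w)

/-- `G` has treewidth at most `k`: a tree decomposition with all bags of size at most `k + 1`. -/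
def TreewidthLE {V : Type} (G : SimpleGraph V) (k : ℕ) : Prop :=
  ∃ (m : ℕ) (T : SimpleGraph (Fin m)) (B : Fin m → Finset V),
    T.IsTree ∧ (∀ u v, G.Adj u v → ∃ t, u ∈ B t ∧ v ∈ B t) ∧
    (∀ v, (T.induce {t | v ∈ B t}).Connected) ∧ ∀ t, (B t).card ≤ k + 1

/-- `G` has path-partition-width at most `b`. -/
def PathPartitionWidthLE {V : Type} [Fintype V] (G : SimpleGraph V) (b : ℕ) : Prop :=
  ∃ f : V → ℕ, (∀ u v, G.Adj u v → f u ≤ f v + 1 ∧ f v ≤ f u + 1) ∧
    ∀ i : ℕ, (Finset.univ.filter (fun v => f v = i)).card ≤ b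

/-- the strong product of two graphs. -/
def StrongProd {A B : Type} (H : SimpleGraph A) (P : SimpleGraph B) : SimpleGraph (A × B) where
  Adj p q := p ≠ q ∧ (p.1 = q.1 ∨ H.Adj p.1 q.1) ∧ (p.2 = q.2 ∨ P.Adj p.2 q.2)
  symm := ⟨fun _ _ h => ⟨h.1.symm, h.2.1.imp Eq.symm fun e => e.symm,
    h.2.2.imp Eq.symm fun e => e.symm⟩⟩
  loopless := ⟨fun _ h => h.1 rfl⟩

/-- For all `c` and `w` there are `n ≤ k b` and an `n`-vertex planar graph `G` with `tw(G) ≤ k` and
`ppw(G) ≤ b` that is not contained in `H ⊠ P ⊠ K_c` for any graph `H` with `tw(H) ≤ w` and at most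
`c b` vertices and any path `P`. -/
theorem result : ∀ c w : ℕ, ∃ n k b : ℕ, 1 ≤ n ∧ 1 ≤ k ∧ 1 ≤ b ∧ n ≤ k * b ∧
    ∃ G : SimpleGraph (Fin n), PlaneDrawable G ∧ TreewidthLE G k ∧ PathPartitionWidthLE G b ∧
      ∀ (m l : ℕ) (H : SimpleGraph (Fin m)), m ≤ c * b → TreewidthLE H w →
        ¬ ∃ φ : G →g StrongProd (StrongProd H (SimpleGraph.pathGraph l))
            (⊤ : SimpleGraph (Fin c)), Function.Injective φ := by
  intro c w
  obtain ⟨S, hS⟩ : ∃ S, S = 18 * c ^ 2 * (2 * w + 1) * (3 * c) + 1 := ⟨_, rfl⟩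
  have hS1 : 1 ≤ S := by omega
  obtain ⟨p, hp, γ, g1, g2, g3⟩ := Pool.Agent.W606.SF.drawing S
  obtain ⟨mm, T, hT, B, b1, b2, b3, b4⟩ := Pool.Agent.W606.SF.treedec S hS1
  refine ⟨Pool.Agent.W606.SF.nn S, S + 1, 3 * 2 ^ S, Pool.Agent.W606.SF.nn_pos S, by omega,
    Nat.mul_pos (by norm_num) (Nat.pow_pos (by norm_num)), Pool.Agent.W606.SF.card_F S,
    Pool.Agent.W606.SF.GG S, ⟨p, γ, hp, g1, ?_, ?_⟩, ⟨mm, T, B, hT, b2, b3, b4⟩,
    Pool.Agent.W606.SF.pathpart S, ?_⟩
  · intro u v x t h1 h2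
    rcases g2 u v x t h1 h2 with h | h
    · exact Or.inl h.1
    · exact Or.inr h.1
  · intro u v u' v' x y h1 h2 h3 h4
    refine g3 u v u' v' x y h1 h2 (fun e => h3 ?_) h4
    rw [Prod.mk.injEq] at e
    rw [e.1, e.2]
  · rintro m l H hm ⟨r, T', B', hT', c1, c2, c3⟩ ⟨φ, hφ⟩
    refine Pool.Agent.W606.SF.noembG S c w (3 * c) (by omega) m (hm.trans (le_of_eq (by ring)))
      H r T' hT' B' ?_ c1 c2 c3 l (fun v => ((φ v).1.1, (φ v).1.2, (φ v).2)) ?_ ?_
    · intro v
      obtain ⟨⟨i, hi⟩⟩ := (c2 v).nonempty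
      exact ⟨i, hi⟩
    · intro u v h
      apply hφ
      have e1 : (φ u).1.1 = (φ v).1.1 := congrArg (fun x => x.1) h
      have e2 : (φ u).1.2 = (φ v).1.2 := congrArg (fun x => x.2.1) h
      have e3 : (φ u).2 = (φ v).2 := congrArg (fun x => x.2.2) h
      exact Prod.ext (Prod.ext e1 e2) e3
    · intro u v h
      have h1 := φ.map_adj h
      rcases h1.2.1 with h2 | h2
      · have e1 : (φ u).1.1 = (φ v).1.1 := by rw [h2]
        have e2 : (φ u).1.2 = (φ v).1.2 := by rw [h2]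
        exact ⟨Or.inl e1, Or.inl e2⟩
      · exact h2.2

end Pool.Agent.Results.MP_951455_co.NoConstantFactor
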